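import Pool.Agent.J4H46.EL.Stm

/-!
# Project EL (MP_5ec99c_ag): a family over a field is defined over a finitely generated subfield
-/

set_option autoImplicit false

open scoped TensorProduct
open CategoryTheory AlgebraicGeometry

universe u

namespace Pool.Agent.J4H57.EL

open Pool.Agent.Helper226 Pool.Agent.J4H46.EL

/-- families over a field -/
theorem mem_iff {K : Type u} [Field K] {B : Type u} [CommRing B] [Algebra K B] {r : ℕ}
    {F : Type u} [Field F] [Algebra K F] {J : Ideal (F ⊗[K] B)} :
    J ∈ HilbFamily K B r F ↔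
      Module.Finite F ((F ⊗[K] B) ⧸ J) ∧ Module.finrank F ((F ⊗[K] B) ⧸ J) = r := by
  constructor
  · rintro ⟨h1, h2, h3⟩
    refine ⟨h1, ?_⟩
    have h4 := h3 ⊥
    rwa [Module.rankAtStalk_eq_finrank_of_free, Pi.natCast_apply, Nat.cast_id] at h4
  · rintro ⟨h1, h2⟩
    refine ⟨h1, inferInstance, fun p => ?_⟩
    rw [Module.rankAtStalk_eq_finrank_of_free, Pi.natCast_apply, Nat.cast_id, h2]

open Algebra in
/-- transcendence degree of an adjunction -/
theorem trdeg_adjoin_le (K κ : Type u) [Field K] [Field κ] [Algebra K κ] (S : Set κ) :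
    Algebra.trdeg K (IntermediateField.adjoin K S) ≤ Cardinal.mk S := by
  open scoped IntermediateField.algebraAdjoinAdjoin in
  have h1 : Algebra.trdeg K (Algebra.adjoin K S) +
      Algebra.trdeg (Algebra.adjoin K S) (IntermediateField.adjoin K S) =
      Algebra.trdeg K (IntermediateField.adjoin K S) := trdeg_add_eq K _
  open scoped IntermediateField.algebraAdjoinAdjoin in
  have h2 : Algebra.trdeg (Algebra.adjoin K S) (IntermediateField.adjoin K S) = 0 :=
    trdeg_eq_zero
  rw [h2, add_zero] at h1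
  rw [← h1]
  have h3 : Function.Surjective ((MvPolynomial.aeval (R := K)
      (fun s : S => (s.1 : κ))).codRestrict (Algebra.adjoin K S) (fun p => by
        have := Algebra.adjoin_range_eq_range_aeval K (fun s : S => (s.1 : κ))
        rw [Subtype.range_coe] at this
        rw [this]
        exact ⟨p, rfl⟩)) := by
    rintro ⟨x, hx⟩
    have h := hx
    have := Algebra.adjoin_range_eq_range_aeval K (fun s : S => (s.1 : κ))
    rw [Subtype.range_coe] at this
    rw [this] at h
    obtain ⟨p, hp⟩ := h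
    exact ⟨p, Subtype.ext hp⟩
  have h4 := trdeg_le_of_surjective _ h3
  rw [MvPolynomial.trdeg_of_isDomain] at h4
  simpa using h4

/-- **EL-FIN** -/
theorem t_FIN : S_FIN.{u} := by
  intro K κ _ _ _ n r J hJ
  obtain ⟨hfin, hrk⟩ := mem_iff.1 hJ
  let b : Module.Basis (Fin r) κ ((κ ⊗[K] MvPolynomial (Fin n) K) ⧸ J) :=
    Module.finBasisOfFinrankEq κ _ hrk
  let X : Fin n → ((κ ⊗[K] MvPolynomial (Fin n) K) ⧸ J) := fun i =>
    Ideal.Quotient.mk J ((1 : κ) ⊗ₜ[K] MvPolynomial.X i)
  let g : (Fin n × Fin r × Fin r) ⊕ Fin r → κ :=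
    Sum.elim (fun t => b.repr (X t.1 * b t.2.1) t.2.2) (fun k => b.repr 1 k)
  let L := IntermediateField.adjoin K (Set.range g)
  have hg : ∀ t, g t ∈ L := fun t => IntermediateField.subset_adjoin K _ ⟨t, rfl⟩
  have hsm : ∀ (l : κ) (hl : l ∈ L) (q : (κ ⊗[K] MvPolynomial (Fin n) K) ⧸ J),
      (⟨l, hl⟩ : L) • q = l • q := fun l hl q => rfl
  refine ⟨L, ?_, b, ?_⟩
  · refine (trdeg_adjoin_le K κ _).trans ?_
    have h5 := Cardinal.mk_range_le_lift (f := g)
    have h6 : Cardinal.mk ((Fin n × Fin r × Fin r) ⊕ Fin r) = ((n * r ^ 2 + r : ℕ) : Cardinal.{0}) := by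
      rw [Cardinal.mk_fintype]
      congr 1
      simp only [Fintype.card_sum, Fintype.card_prod, Fintype.card_fin]
      ring
    rw [h6, Cardinal.lift_natCast] at h5
    simpa only [Cardinal.lift_id'] using h5
  · have hmem : ∀ q : (κ ⊗[K] MvPolynomial (Fin n) K) ⧸ J, (∀ k, b.repr q k ∈ L) →
        q ∈ Submodule.span L (Set.range b) := by
      intro q hq
      rw [← b.sum_repr q]
      refine Submodule.sum_mem _ fun k _ => ?_
      rw [← hsm _ (hq k)]
      exact Submodule.smul_mem _ _ (Submodule.subset_span ⟨k, rfl⟩)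
    have h1 : (1 : (κ ⊗[K] MvPolynomial (Fin n) K) ⧸ J) ∈ Submodule.span L (Set.range b) :=
      hmem 1 fun k => hg (Sum.inr k)
    have hX : ∀ i, ∀ q ∈ Submodule.span L (Set.range b), X i * q ∈ Submodule.span L (Set.range b) := by
      intro i q hq
      induction hq using Submodule.span_induction with
      | mem x hx =>
        obtain ⟨j, rfl⟩ := hx
        exact hmem _ fun k => hg (Sum.inl (i, j, k))
      | zero =>
        have e0 : X i * (0 : ((κ ⊗[K] MvPolynomial (Fin n) K) ⧸ J)) = 0 := mul_zero (X i)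
        exact Eq.subst (motive := fun z => z ∈ Submodule.span L (Set.range b)) e0.symm
          (Submodule.zero_mem _)
      | add x y _ _ hx hy => rw [mul_add]; exact Submodule.add_mem _ hx hy
      | smul l x _ hx =>
        have : X i * (l • x) = l • (X i * x) := mul_smul_comm l (X i) x
        rw [this]
        exact Submodule.smul_mem _ _ hx
    intro p
    induction p using MvPolynomial.induction_on with
    | C a =>
      have e : Ideal.Quotient.mk J ((1 : κ) ⊗ₜ[K] MvPolynomial.C a) =
          (algebraMap K L a) • (1 : (κ ⊗[K] MvPolynomial (Fin n) K) ⧸ J) := by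
        have e1 : (algebraMap K L a) • (1 : (κ ⊗[K] MvPolynomial (Fin n) K) ⧸ J) =
          (algebraMap K κ a) • (1 : (κ ⊗[K] MvPolynomial (Fin n) K) ⧸ J) := rfl
        rw [e1, ← map_one (Ideal.Quotient.mk J)]
        have e2 : (algebraMap K κ a) • Ideal.Quotient.mk J (1 : κ ⊗[K] MvPolynomial (Fin n) K) =
          Ideal.Quotient.mk J ((algebraMap K κ a) • (1 : κ ⊗[K] MvPolynomial (Fin n) K)) := rfl
        rw [e2]
        congr 1
        rw [← MvPolynomial.algebraMap_eq, Algebra.TensorProduct.one_def, TensorProduct.smul_tmul',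
          Algebra.algebraMap_eq_smul_one, Algebra.algebraMap_eq_smul_one, TensorProduct.tmul_smul]
        simp [TensorProduct.smul_tmul']
      rw [e]
      exact Submodule.smul_mem _ _ h1
    | add p q hp hq =>
      rw [TensorProduct.tmul_add, map_add]
      exact Submodule.add_mem _ hp hq
    | mul_X p i hp =>
      have e : Ideal.Quotient.mk J ((1 : κ) ⊗ₜ[K] (p * MvPolynomial.X i)) =
          X i * Ideal.Quotient.mk J ((1 : κ) ⊗ₜ[K] p) := by
        rw [← map_mul, Algebra.TensorProduct.tmul_mul_tmul, one_mul, mul_comm]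
      rw [e]
      exact hX i _ hp

end Pool.Agent.J4H57.EL
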