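import Pool.Agent.J4H57.EL.Gra0

/-!
# Project EL (MP_5ec99c_ag), GRA: the generic point of the Grassmannian
-/

set_option autoImplicit false

open scoped TensorProduct
open CategoryTheory AlgebraicGeometry

universe u

namespace Pool.Agent.J4H57.EL

open Pool.Agent.Helper226 Pool.Agent.J4H46.EL

section main

variable {K F : Type u} [Field K] [Field F] [Algebra K F] {L I M : Type} [Fintype L] [Fintype I]
  [Fintype M] (low : L → (Fin 3 →₀ ℕ)) (nu : I → (Fin 3 →₀ ℕ)) (mu : M → (Fin 3 →₀ ℕ))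
  (a : I → M → F)

/-- the linear forms on the tensor product -/
noncomputable def LamT : F ⊗[K] MvPolynomial (Fin 3) K →ₗ[F] (L ⊕ I → F) :=
  (Lam low nu mu a).comp (MvPolynomial.algebraTensorAlgEquiv K F).toLinearMap

theorem LamT_mon (m : Fin 3 →₀ ℕ) :
    LamT (K := K) low nu mu a ((1 : F) ⊗ₜ[K] MvPolynomial.monomial m 1) =
      Lam low nu mu a (MvPolynomial.monomial m 1) := by
  unfold LamT
  rw [LinearMap.comp_apply]
  congr 1
  rw [AlgEquiv.toLinearMap_apply, MvPolynomial.algebraTensorAlgEquiv_tmul, one_smul,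
    MvPolynomial.map_monomial, map_one]

/-- the ideal of the tensor product -/
noncomputable def JT {s : ℕ} (hlow : ∀ m : Fin 3 →₀ ℕ, m.degree < s ↔ ∃ l, low l = m)
    (hnu : ∀ i, (nu i).degree = s) (hmu : ∀ j, (mu j).degree = s) :
    Ideal (F ⊗[K] MvPolynomial (Fin 3) K) :=
  (J0 low nu mu a hlow hnu hmu).comap
    (MvPolynomial.algebraTensorAlgEquiv K F : F ⊗[K] MvPolynomial (Fin 3) K ≃ₐ[F] _)

theorem mem_JT {s : ℕ} (hlow : ∀ m : Fin 3 →₀ ℕ, m.degree < s ↔ ∃ l, low l = m)
    (hnu : ∀ i, (nu i).degree = s) (hmu : ∀ j, (mu j).degree = s)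
    (z : F ⊗[K] MvPolynomial (Fin 3) K) :
    z ∈ JT low nu mu a hlow hnu hmu ↔ LamT (K := K) low nu mu a z = 0 := Iff.rfl

/-- the dimension of the quotient -/
theorem JT_dim {s : ℕ} (hlow : ∀ m : Fin 3 →₀ ℕ, m.degree < s ↔ ∃ l, low l = m)
    (hli : Function.Injective low)
    (hnu : ∀ i, (nu i).degree = s) (hni : Function.Injective nu) (hmu : ∀ j, (mu j).degree = s)
    (hnm : ∀ i j, nu i ≠ mu j) :
    JT low nu mu a hlow hnu hmu ∈
      HilbFamily K (MvPolynomial (Fin 3) K) (Fintype.card L + Fintype.card I) F := by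
  classical
  rw [mem_iff]
  have hs : Function.Surjective (LamT (K := K) low nu mu a) := by
    intro v
    refine ⟨∑ x, v x • ((1 : F) ⊗ₜ[K] MvPolynomial.monomial (Sum.elim low nu x) 1), ?_⟩
    rw [map_sum]
    simp_rw [map_smul, LamT_mon, Lam_t low nu mu a hlow hli hnu hni hmu hnm]
    funext y
    rw [Finset.sum_apply, Finset.sum_eq_single y]
    · simp
    · intro x _ hx
      simp [hx.symm]
    · intro h; exact absurd (Finset.mem_univ y) h
  have hk : LinearMap.ker (LamT (K := K) low nu mu a) =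
      (JT (K := K) low nu mu a hlow hnu hmu).restrictScalars F := by
    ext z
    rw [LinearMap.mem_ker, Submodule.restrictScalars_mem, mem_JT]
  let e1 := (LamT (K := K) low nu mu a).quotKerEquivOfSurjective hs
  let e2 := Submodule.quotEquivOfEq _ _ hk
  let e3 := Submodule.Quotient.restrictScalarsEquiv F (JT (K := K) low nu mu a hlow hnu hmu)
  let E := (e1.symm.trans e2).trans e3
  refine ⟨Module.Finite.equiv E, ?_⟩
  rw [← LinearEquiv.finrank_eq E, Module.finrank_fintype_fun_eq_card, Fintype.card_sum]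

/-- the coefficients are in every field of definition -/
theorem JT_def {s : ℕ} (hlow : ∀ m : Fin 3 →₀ ℕ, m.degree < s ↔ ∃ l, low l = m)
    (hli : Function.Injective low)
    (hnu : ∀ i, (nu i).degree = s) (hni : Function.Injective nu) (hmu : ∀ j, (mu j).degree = s)
    (hmi : Function.Injective mu)
    (hnm : ∀ i j, nu i ≠ mu j) (κ : Type u) [Field κ] [Algebra K κ] (ψ : κ →ₐ[K] F)
    (J' : Ideal (κ ⊗[K] MvPolynomial (Fin 3) K))
    (hJ' : J' ∈ HilbFamily K (MvPolynomial (Fin 3) K) (Fintype.card L + Fintype.card I) κ)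
    (hb : bcI (MvPolynomial (Fin 3) K) ψ J' = JT low nu mu a hlow hnu hmu) (i : I) (j : M) :
    ∃ c : κ, ψ c = a i j := by
  classical
  obtain ⟨hfin, hrk⟩ := mem_iff.1 hJ'
  set Φ := Algebra.TensorProduct.map ψ (AlgHom.id K (MvPolynomial (Fin 3) K)) with hΦ
  have hmap : ∀ z ∈ J', LamT (K := K) low nu mu a (Φ z) = 0 := by
    intro z hz
    rw [← mem_JT low nu mu a hlow hnu hmu, ← hb]
    exact Ideal.mem_map_of_mem _ hz
  let w : L ⊕ I → κ ⊗[K] MvPolynomial (Fin 3) K := fun x =>
    (1 : κ) ⊗ₜ[K] MvPolynomial.monomial (Sum.elim low nu x) 1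
  have hΦ1 : ∀ (c : κ) (m : Fin 3 →₀ ℕ),
      Φ (c • ((1 : κ) ⊗ₜ[K] MvPolynomial.monomial m 1)) =
        ψ c • ((1 : F) ⊗ₜ[K] MvPolynomial.monomial m 1) := by
    intro c m
    rw [TensorProduct.smul_tmul', hΦ, Algebra.TensorProduct.map_tmul, TensorProduct.smul_tmul',
      smul_eq_mul, smul_eq_mul, mul_one, mul_one]
    rfl
  have hΦw : ∀ c : L ⊕ I → κ, LamT (K := K) low nu mu a (Φ (∑ x, c x • w x)) =
      fun x => ψ (c x) := by
    intro c
    rw [map_sum, map_sum]
    simp_rw [w, hΦ1, map_smul, LamT_mon, Lam_t low nu mu a hlow hli hnu hni hmu hnm]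
    funext y
    rw [Finset.sum_apply, Finset.sum_eq_single y]
    · simp
    · intro x _ hx
      simp [hx.symm]
    · intro h; exact absurd (Finset.mem_univ y) h
  have hli' : LinearIndependent κ (fun x => Ideal.Quotient.mk J' (w x)) := by
    rw [Fintype.linearIndependent_iff]
    intro c hc x
    have h1 : ∑ x, c x • w x ∈ J' := by
      rw [← Ideal.Quotient.eq_zero_iff_mem, map_sum]
      exact hc
    have h2 := hmap _ h1
    rw [hΦw] at h2
    have h3 : ψ (c x) = 0 := congrFun h2 x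
    exact (map_eq_zero ψ).1 h3
  have hspan := hli'.span_eq_top_of_card_eq_finrank' (by rw [hrk, Fintype.card_sum])
  have hmem : Ideal.Quotient.mk J' ((1 : κ) ⊗ₜ[K] MvPolynomial.monomial (mu j) 1) ∈
      Submodule.span κ (Set.range fun x => Ideal.Quotient.mk J' (w x)) := by
    rw [hspan]; exact Submodule.mem_top
  rw [Submodule.mem_span_range_iff_exists_fun] at hmem
  obtain ⟨c, hc⟩ := hmem
  have h1 : (1 : κ) • ((1 : κ) ⊗ₜ[K] MvPolynomial.monomial (mu j) 1) - ∑ x, c x • w x ∈ J' := by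
    rw [← Ideal.Quotient.eq_zero_iff_mem, map_sub, map_sum, sub_eq_zero, one_smul]
    exact hc.symm
  have h2 := hmap _ h1
  rw [map_sub, map_sub, hΦw, hΦ1, map_one, one_smul, LamT_mon] at h2
  have h3 := congrFun h2 (Sum.inr i)
  rw [Pi.sub_apply, Lam_mu low nu mu a hmi hnm j i] at h3
  exact ⟨c (Sum.inr i), (sub_eq_zero.1 h3).symm⟩

end main

/-- **EL-GRA** -/
theorem t_GRA : S_GRA.{u} := by
  intro K _ s e he
  obtain ⟨low, hli, hlow⟩ := exists_low s
  obtain ⟨nu, mu, hni, hmi, hnu, hmu, hnm⟩ := exists_top s e he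
  let σ : Type := Fin e × Fin ((s + 2).choose 2 - e)
  let F : Type u := FractionRing (MvPolynomial σ K)
  let a : Fin e → Fin ((s + 2).choose 2 - e) → F := fun i j =>
    algebraMap (MvPolynomial σ K) F (MvPolynomial.X (i, j))
  have hdim := JT_dim (K := K) low nu mu a hlow hli hnu hni hmu hnm
  rw [Fintype.card_fin, Fintype.card_fin] at hdim
  refine ⟨F, inferInstance, inferInstance, JT low nu mu a hlow hnu hmu, hdim, ?_⟩
  intro κ _ _ ψ J' hJ' hb
  have hdef : ∀ p : σ, ∃ c : κ, ψ c = a p.1 p.2 := fun p =>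
    JT_def low nu mu a hlow hli hnu hni hmu hmi hnm κ ψ J'
      (by rw [Fintype.card_fin, Fintype.card_fin]; exact hJ') hb p.1 p.2
  choose c hc using hdef
  have hX : AlgebraicIndependent K (fun p : σ => a p.1 p.2) :=
    (MvPolynomial.algebraicIndependent_X σ K).map' (f := IsScalarTower.toAlgHom K
      (MvPolynomial σ K) F) (IsFractionRing.injective (MvPolynomial σ K) F)
  have hc2 : AlgebraicIndependent K c := by
    refine AlgebraicIndependent.of_comp ψ ?_
    have : (ψ ∘ c) = fun p : σ => a p.1 p.2 := funext hc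
    rw [this]; exact hX
  have h1 := hc2.lift_cardinalMk_le_trdeg
  have h2 : Cardinal.mk σ = ((e * ((s + 2).choose 2 - e) : ℕ) : Cardinal.{0}) := by
    rw [Cardinal.mk_fintype]
    congr 1
    simp only [σ, Fintype.card_prod, Fintype.card_fin]
  rw [h2, Cardinal.lift_natCast] at h1
  simpa only [Cardinal.lift_id'] using h1

end Pool.Agent.J4H57.EL
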