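import Pool.Agent.J4H57.EL.Fin

/-!
# Project EL (MP_5ec99c_ag), GRA: counting monomials, the ideal
-/

set_option autoImplicit false

open scoped TensorProduct
open CategoryTheory AlgebraicGeometry

universe u

namespace Pool.Agent.J4H57.EL

open Pool.Agent.Helper226 Pool.Agent.J4H46.EL

/-- exponents of degree `t` -/
def TopS (t : ℕ) : Set (Fin 3 →₀ ℕ) := {m | m.degree = t}

/-- exponents of degree less than `s` -/
def LowS (s : ℕ) : Set (Fin 3 →₀ ℕ) := {m | m.degree < s}

theorem top_card (t : ℕ) : (TopS t).Finite ∧ (TopS t).ncard = (t + 2).choose 2 := by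
  have e : Sym (Fin 3) t ≃ TopS t := (Sym.equivNatSum (Fin 3) t).trans
    (Equiv.subtypeEquivRight fun P => by
      simp only [TopS, Set.mem_ofPred_eq, Finsupp.degree, Finsupp.sum]
      rfl)
  have hf : Finite (TopS t) := Finite.of_equiv _ e
  refine ⟨Set.toFinite _, ?_⟩
  rw [← Nat.card_coe_set_eq, ← Nat.card_congr e, Nat.card_eq_fintype_card,
    Sym.card_sym_eq_choose, Fintype.card_fin]
  have h1 : 3 + t - 1 = t + 2 := by omega
  rw [h1, Nat.choose_symm_add]

theorem low_card (s : ℕ) : (LowS s).Finite ∧ (LowS s).ncard = (s + 2).choose 3 := by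
  induction s with
  | zero =>
    have : LowS 0 = ∅ := by
      ext m; simp [LowS]
    rw [this]
    simp
  | succ s ih =>
    have h1 : LowS (s + 1) = LowS s ∪ TopS s := by
      ext m
      simp only [LowS, TopS, Set.mem_ofPred_eq, Set.mem_union]
      omega
    have h2 : Disjoint (LowS s) (TopS s) := by
      rw [Set.disjoint_left]
      intro m hm hm'
      simp only [LowS, TopS, Set.mem_ofPred_eq] at hm hm'
      omega
    obtain ⟨h3, h4⟩ := top_card s
    refine ⟨h1 ▸ ih.1.union h3, ?_⟩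
    rw [h1, Set.ncard_union_eq h2 ih.1 h3, ih.2, h4]
    have : s + 1 + 2 = (s + 2) + 1 := by ring
    rw [this, Nat.choose_succ_succ (s + 2) 2]
    ring

/-- numbering of the low exponents -/
theorem exists_low (s : ℕ) : ∃ low : Fin ((s + 2).choose 3) → (Fin 3 →₀ ℕ),
    Function.Injective low ∧ ∀ m : Fin 3 →₀ ℕ, m.degree < s ↔ ∃ l, low l = m := by
  obtain ⟨h1, h2⟩ := low_card s
  have : Finite (LowS s) := h1
  have e : Fin ((s + 2).choose 3) ≃ LowS s :=
    (Finite.equivFinOfCardEq (by rw [Nat.card_coe_set_eq, h2])).symm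
  refine ⟨fun l => (e l).1, fun a b h => e.injective (Subtype.ext h), fun m => ⟨fun h => ?_, ?_⟩⟩
  · exact ⟨e.symm ⟨m, h⟩, congrArg Subtype.val (e.apply_symm_apply ⟨m, h⟩)⟩
  · rintro ⟨l, rfl⟩
    exact (e l).2

/-- numbering of the top exponents -/
theorem exists_top (s e : ℕ) (he : e ≤ (s + 2).choose 2) :
    ∃ (nu : Fin e → (Fin 3 →₀ ℕ)) (mu : Fin ((s + 2).choose 2 - e) → (Fin 3 →₀ ℕ)),
    Function.Injective nu ∧ Function.Injective mu ∧ (∀ i, (nu i).degree = s) ∧
    (∀ j, (mu j).degree = s) ∧ ∀ i j, nu i ≠ mu j := by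
  obtain ⟨h1, h2⟩ := top_card s
  have : Finite (TopS s) := h1
  have E : Fin e ⊕ Fin ((s + 2).choose 2 - e) ≃ TopS s :=
    finSumFinEquiv.trans (Finite.equivFinOfCardEq (by rw [Nat.card_coe_set_eq, h2]; omega)).symm
  refine ⟨fun i => (E (Sum.inl i)).1, fun j => (E (Sum.inr j)).1, fun a b h => ?_,
    fun a b h => ?_, fun i => ?_, fun j => ?_, fun i j h => ?_⟩
  · exact Sum.inl_injective (E.injective (Subtype.ext h))
  · exact Sum.inr_injective (E.injective (Subtype.ext h))
  · exact (E (Sum.inl i)).2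
  · exact (E (Sum.inr j)).2
  · exact absurd (E.injective (Subtype.ext h)) (by simp)

section ideal

variable {F : Type u} [Field F] {L I M : Type} [Fintype L] [Fintype I] [Fintype M]
  (low : L → (Fin 3 →₀ ℕ)) (nu : I → (Fin 3 →₀ ℕ)) (mu : M → (Fin 3 →₀ ℕ)) (a : I → M → F)

/-- the linear forms -/
noncomputable def Lam : MvPolynomial (Fin 3) F →ₗ[F] (L ⊕ I → F) :=
  LinearMap.pi (Sum.elim (fun l => MvPolynomial.lcoeff F (low l))
    (fun i => MvPolynomial.lcoeff F (nu i) + ∑ j, a i j • MvPolynomial.lcoeff F (mu j)))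

theorem Lam_inl (p : MvPolynomial (Fin 3) F) (l : L) :
    Lam low nu mu a p (Sum.inl l) = p.coeff (low l) := rfl

theorem Lam_inr (p : MvPolynomial (Fin 3) F) (i : I) :
    Lam low nu mu a p (Sum.inr i) = p.coeff (nu i) + ∑ j, a i j * p.coeff (mu j) := by
  unfold Lam
  simp only [LinearMap.pi_apply, Sum.elim_inr, LinearMap.add_apply, MvPolynomial.lcoeff_apply,
    LinearMap.sum_apply, LinearMap.smul_apply, smul_eq_mul]

/-- the product with a polynomial without terms of low degree -/
theorem coeff_mul_top {s : ℕ} (p q : MvPolynomial (Fin 3) F)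
    (hp : ∀ m : Fin 3 →₀ ℕ, m.degree < s → p.coeff m = 0) (m : Fin 3 →₀ ℕ) (hm : m.degree ≤ s) :
    (q * p).coeff m = q.coeff 0 * p.coeff m := by
  rw [MvPolynomial.coeff_mul]
  rw [Finset.sum_eq_single (0, m)]
  · rintro ⟨x, y⟩ hxy hne
    rw [Finset.HasAntidiagonal.mem_antidiagonal] at hxy
    dsimp only at hxy ⊢
    have hx : x ≠ 0 := by
      rintro rfl
      apply hne
      rw [zero_add] at hxy
      rw [hxy]
    have h1 : x.degree + y.degree = m.degree := by rw [← hxy, map_add]
    have h2 : x.degree ≠ 0 := fun h => hx ((Finsupp.degree_eq_zero_iff x).1 h)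
    rw [hp y (by omega), mul_zero]
  · intro h
    exfalso
    apply h
    rw [Finset.HasAntidiagonal.mem_antidiagonal, zero_add]

/-- the ideal -/
def J0 {s : ℕ} (hlow : ∀ m : Fin 3 →₀ ℕ, m.degree < s ↔ ∃ l, low l = m)
    (hnu : ∀ i, (nu i).degree = s) (hmu : ∀ j, (mu j).degree = s) :
    Ideal (MvPolynomial (Fin 3) F) where
  carrier := {p | Lam low nu mu a p = 0}
  add_mem' := by
    intro p q hp hq
    simp only [Set.mem_ofPred_eq] at *
    rw [map_add, hp, hq, add_zero]
  zero_mem' := by simp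
  smul_mem' := by
    intro q p hp
    simp only [Set.mem_ofPred_eq, smul_eq_mul] at *
    have h0 : ∀ m : Fin 3 →₀ ℕ, m.degree < s → p.coeff m = 0 := by
      intro m hm
      obtain ⟨l, rfl⟩ := (hlow m).1 hm
      exact congrFun hp (Sum.inl l)
    funext x
    rcases x with l | i
    · have hl : (low l).degree < s := (hlow _).2 ⟨l, rfl⟩
      rw [Lam_inl, coeff_mul_top p q h0 _ hl.le, h0 _ hl, mul_zero]
      rfl
    · have h1 := congrFun hp (Sum.inr i)
      rw [Lam_inr] at h1 ⊢
      rw [coeff_mul_top p q h0 _ (hnu i).le]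
      have h2 : ∀ j, a i j * (q * p).coeff (mu j) = q.coeff 0 * (a i j * p.coeff (mu j)) := by
        intro j
        rw [coeff_mul_top p q h0 _ (hmu j).le]; ring
      simp_rw [h2]
      rw [← Finset.mul_sum, ← mul_add, h1]
      simp

/-- values at the basic monomials -/
theorem Lam_t [DecidableEq L] [DecidableEq I] {s : ℕ}
    (hlow : ∀ m : Fin 3 →₀ ℕ, m.degree < s ↔ ∃ l, low l = m) (hli : Function.Injective low)
    (hnu : ∀ i, (nu i).degree = s) (hni : Function.Injective nu) (hmu : ∀ j, (mu j).degree = s)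
    (hnm : ∀ i j, nu i ≠ mu j) (x : L ⊕ I) :
    Lam low nu mu a (MvPolynomial.monomial (Sum.elim low nu x) 1) = Pi.single x 1 := by
  funext y
  have hll : ∀ l, (low l).degree < s := fun l => (hlow _).2 ⟨l, rfl⟩
  have hd : ∀ l i, low l ≠ nu i := fun l i h => by
    have h1 := hll l; rw [h, hnu i] at h1; exact lt_irrefl _ h1
  have hd' : ∀ l j, low l ≠ mu j := fun l i h => by
    have h1 := hll l; rw [h, hmu i] at h1; exact lt_irrefl _ h1
  rcases x with l | i <;> rcases y with l' | i'
  · rw [Lam_inl, Sum.elim_inl, MvPolynomial.coeff_monomial, Pi.single_apply]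
    by_cases h : l = l'
    · subst h; simp
    · have h2 : low l ≠ low l' := fun h' => h (hli h')
      have h3 : (Sum.inl l' : L ⊕ I) ≠ Sum.inl l := fun h' => h (Sum.inl_injective h').symm
      rw [if_neg h2, if_neg h3]
  · rw [Lam_inr, Sum.elim_inl, MvPolynomial.coeff_monomial, Pi.single_apply, if_neg (hd l i')]
    simp_rw [MvPolynomial.coeff_monomial]
    simp [hd']
  · rw [Lam_inl, Sum.elim_inr, MvPolynomial.coeff_monomial, Pi.single_apply,
      if_neg (hd l' i).symm]
    simp
  · rw [Lam_inr, Sum.elim_inr, MvPolynomial.coeff_monomial, Pi.single_apply]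
    simp_rw [MvPolynomial.coeff_monomial]
    by_cases h : i = i'
    · subst h; simp [hnm]
    · have h2 : nu i ≠ nu i' := fun h' => h (hni h')
      have h3 : (Sum.inr i' : L ⊕ I) ≠ Sum.inr i := fun h' => h (Sum.inr_injective h').symm
      rw [if_neg h2, if_neg h3]
      simp [hnm]

theorem Lam_mu (hmi : Function.Injective mu) (hnm : ∀ i j, nu i ≠ mu j) (j : M) (i : I) :
    Lam low nu mu a (MvPolynomial.monomial (mu j) 1) (Sum.inr i) = a i j := by
  classical
  rw [Lam_inr]
  simp_rw [MvPolynomial.coeff_monomial]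
  rw [if_neg (hnm i j).symm, zero_add, Finset.sum_eq_single j]
  · simp
  · intro j' _ hj'
    have : mu j ≠ mu j' := fun h => hj' (hmi h).symm
    simp [this]
  · intro h; exact absurd (Finset.mem_univ j) h

end ideal

end Pool.Agent.J4H57.EL
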